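import Mathlib
import Pool.Agent.Run7.h695.BT.Wgt7

/-!
# Linear weighted `L ^ 2` bounds for radial weights that are monotone along rays

The component of angular type `j` of a function `f` on the plane is the average of
`e ^ (-i j θ) f (e ^ (i θ) z)` over `θ`.  Let `m ≥ 1`, let `f` be a Schwartz function whose
components of the types `0` and `2m` vanish, and let `g` be a radial Schwartz function.  Then for
every measurable radial weight `w` with

* `v ^ 2 w (v z) ≤ w z` for `0 < v ≤ 1` (needed only if `f` has a component of a type `> m`),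
* `v ^ 2 w z ≤ w (v z)` for `0 < v ≤ 1` (needed only if `f` has a component of a type `≤ m`),
* `w z ≤ w (v z)` for `0 < v ≤ 1` (needed only if `g` is not `0`),

the norm of `B ^ m (f + g)` in `L ^ 2 (w)` is at most `22 m` times that of `f + g`; the constant does
not depend on `w`.  So for radially non-increasing `w` with `r ^ 2 w` non-decreasing, for example
`|z| ^ α` with `-2 ≤ α ≤ 0`, the bound holds on all functions without the type `2m`, and for all
radial `w` with `r ^ 2 w` increasing and `w / r ^ 2` decreasing, for example `|z| ^ α` with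
`-2 ≤ α ≤ 2`, it holds on all functions without the types `0` and `2m`; such weights need not be in
`A_2`.

Proof: the component of type `j - 2m` of `B ^ m f` is, up to a unimodular factor, the component of
type `j` of `f` minus an average of its dilations with a Jacobi polynomial as kernel; the integral of
the modulus of the kernel is at most `6.7 m - 0.33`, which by Minkowski's inequality gives the bound
for one component of type `j ≠ 0, 2m`; for the type `0` the integral of the modulus of the kernel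
with the weight `1 / v` is at most `22 m - 1`.  The identity of Parseval on the circles gives the
bound for `f + g`.
-/

set_option autoImplicit false

open MeasureTheory

namespace Pool.Agent.Results.MP_f0c028_an.RadialTypes

/-- The `m`-th power of the Beurling transform of a Schwartz function: the Fourier multiplier with
symbol `(conj ξ / ξ) ^ m`, in the literal form of the frozen statement. -/
noncomputable def B (m : ℕ) (f : SchwartzMap ℂ ℂ) (z : ℂ) : ℂ :=
  ∫ ξ : ℂ,
    Complex.exp (2 * (Real.pi : ℂ) * Complex.I * ((z.re * ξ.re + z.im * ξ.im : ℝ) : ℂ)) *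
      ((starRingEnd ℂ ξ / ξ) ^ m *
        ∫ x : ℂ, Complex.exp (-(2 * (Real.pi : ℂ) * Complex.I *
          ((x.re * ξ.re + x.im * ξ.im : ℝ) : ℂ))) * f x)

/-- The component of angular type `j` of `f`: the integral over `0 ≤ x ≤ 1` of
`exp (-2 π i j x) f (exp (2 π i x) z)`. -/
noncomputable def component (j : ℤ) (f : SchwartzMap ℂ ℂ) (z : ℂ) : ℂ :=
  ∫ x in (0:ℝ)..1, Complex.exp (((2 * Real.pi * (-(j * x)) : ℝ) : ℂ) * Complex.I) *
    f (Complex.exp (((2 * Real.pi * x : ℝ) : ℂ) * Complex.I) * z)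

/-- For all `m ≥ 1`, all Schwartz functions `f` whose components of types `0` and `2m` vanish, all
radial Schwartz functions `g` and all radial measurable `w` with `v ^ 2 w (v z) ≤ w z` (if `f` has a
component of a type `> m`), `v ^ 2 w z ≤ w (v z)` (if `f` has a component of a type `≤ m`) and
`w z ≤ w (v z)` (if `g ≠ 0`) for `0 < v ≤ 1`:
`‖B ^ m (f + g)‖_{L ^ 2 (w)} ≤ 22 m ‖f + g‖_{L ^ 2 (w)}`. -/
theorem result : ∀ m : ℕ, 1 ≤ m → ∀ f g : SchwartzMap ℂ ℂ,
    (∀ z : ℂ, component 0 f z = 0) → (∀ z : ℂ, component (2 * (m : ℤ)) f z = 0) →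
    (∀ b z : ℂ, ‖b‖ = 1 → g (b * z) = g z) →
    ∀ w : ℂ → ℝ, Measurable w → (∀ b z : ℂ, ‖b‖ = 1 → w (b * z) = w z) →
      ((∃ j : ℤ, (m : ℤ) < j ∧ ∃ z : ℂ, component j f z ≠ 0) →
        ∀ v : ℝ, 0 < v → v ≤ 1 → ∀ z : ℂ, v ^ 2 * w ((v : ℂ) * z) ≤ w z) →
      ((∃ j : ℤ, j ≤ (m : ℤ) ∧ ∃ z : ℂ, component j f z ≠ 0) →
        ∀ v : ℝ, 0 < v → v ≤ 1 → ∀ z : ℂ, v ^ 2 * w z ≤ w ((v : ℂ) * z)) →
      ((∃ z : ℂ, g z ≠ 0) →
        ∀ v : ℝ, 0 < v → v ≤ 1 → ∀ z : ℂ, w z ≤ w ((v : ℂ) * z)) →
      ∫⁻ z : ℂ, ‖B m (f + g) z‖ₑ ^ 2 * ENNReal.ofReal (w z) ≤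
        ENNReal.ofReal ((22 * m) ^ 2) * ∫⁻ z : ℂ, ‖(f + g) z‖ₑ ^ 2 * ENNReal.ofReal (w z) := by
  intro m hm f g h0 h2m hg w hw hr h1 h2 h3
  exact Pool.Agent.Run7.h695.BT.gen2_w hm f g (fun b z hb => by
    rw [zpow_zero, one_mul]
    exact hg b z hb) h0 h2m hw hr h1 h2 h3

end Pool.Agent.Results.MP_f0c028_an.RadialTypes
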